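import Mathlib
import Pool.Agent.Lib.Helper54.SunCatalanAux

open Finset Pool.Agent.Lib.Helper54.SunCatalanAux

namespace Pool.Agent.Results.MP_77f5f4_nt.SunCatalan

/-- The Catalan number `C_k = binom(2k,k)/(k+1)`, as a rational number. -/
def C (k : ℕ) : ℚ := (Nat.choose (2 * k) k : ℚ) / (k + 1)

/-- The second-order Catalan number of the first kind, `binom(3k,k)/(2k+1)`. -/
def C2 (k : ℕ) : ℚ := (Nat.choose (3 * k) k : ℚ) / (2 * k + 1)

/-- The second-order Catalan number of the second kind, `2 binom(3k,k)/(k+1)`. -/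
def C2bar (k : ℕ) : ℚ := 2 / (k + 1) * (Nat.choose (3 * k) k : ℚ)

/-- `a ≡ b (mod p^m)` in the ring of rational numbers whose denominator is prime to `p`. -/
def CongMod (p m : ℕ) (a b : ℚ) : Prop :=
  ∃ r : ℚ, ¬ p ∣ r.den ∧ a - b = (p : ℚ) ^ m * r

/-! ## Proof

With `t_k = binom(2k,k) binom(3k,k) / 27^k = f_k(-1/3)`, where
`f_k(x) = binom(x,k) binom(-1-x,k)`, one has
`C_k C_k^{(2)} / 27^k = 2 t_k/(2k+1) - t_k/(k+1)` and `C_k Cbar_k^{(2)} / 27^k = 2 t_k/(k+1)^2`.
The sums of `t_k/(k+1)` and of `t_k/(k+1)^2` have closed forms (Gosper summation).  For the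
remaining sum put `H(x) = (2x+1) * sum_{k<p} f_k(x)/(2k+1)`; then
`H(x+1) - H(x) = 2 * prod_{j=1}^{p-1} (1 - (x+1)^2/j^2)`, which is `0` modulo `p^2` when `x+1` is a
`p`-adic unit, so that one may shift `x = -1/3` to a multiple `x = p s` of `p`, where
`H(p s) = 1 + 2 s` modulo `p^2` by a direct expansion.
The lemmas are in the helper file `Pool/Agent/Lib/Helper54/SunCatalanAux.lean`.
-/



/-- **Main theorem.**  For every prime `p > 3`,
`∑_{k<p} C_k C_k^{(2)}/27^k ≡ 2 (p/3) - p (mod p^2)` and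
`∑_{k<p} C_k \bar C_k^{(2)}/27^k ≡ -7 (mod p)`. -/
theorem result (p : ℕ) (hp : p.Prime) (h3 : 3 < p) :
    CongMod p 2 (∑ k ∈ range p, C k * C2 k / 27 ^ k) (2 * (legendreSym 3 p : ℤ) - p) ∧
    CongMod p 1 (∑ k ∈ range p, C k * C2bar k / 27 ^ k) (-7) := by
  have : Fact p.Prime := ⟨hp⟩
  have hf := fp_eval h3
  have hs1 := sum1 (-1 / 3) p
  have hs2 := sum2 (-1 / 3) p
  have hfp : f p (-1 / 3) ∈ Zl p := by
    have h9 : ¬ p ∣ 9 := fun h => by
      have h3' : ¬ p ∣ 3 := fun h => by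
        have := Nat.le_of_dvd (by norm_num) h
        omega
      exact h3' (hp.dvd_of_dvd_pow (show p ∣ 3 ^ 2 by simpa using h))
    have h2 : (2 : ℚ) ∈ Zl p := by exact_mod_cast nat_mem (p := p) 2
    have h29 : (2 / 9 : ℚ) ∈ Zl p := by exact_mod_cast div_mem (p := p) (n := 9) h2 h9
    have : f p (-1 / 3) = (f p (-1 / 3) - 2 / 9) + 2 / 9 := by ring
    rw [this]
    exact (Zl p).add_mem hf.mem h29
  constructor
  · apply D.toExists
    have e : ∑ k ∈ range p, C k * C2 k / 27 ^ k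
        = 2 * ∑ k ∈ range p, f k (-1 / 3) / (2 * (k : ℚ) + 1)
          - ∑ k ∈ range p, f k (-1 / 3) / ((k : ℚ) + 1) := by
      rw [mul_sum, ← sum_sub_distrib]
      refine sum_congr rfl fun k _ => ?_
      rw [← t_eq_f]
      unfold C C2
      have h1 : ((k : ℚ) + 1) ≠ 0 := by positivity
      have h2 : (2 * (k : ℚ) + 1) ≠ 0 := by positivity
      field_simp
      ring
    have hs1' : ∑ k ∈ range p, f k (-1 / 3) / ((k : ℚ) + 1) = 9 / 2 * (p * f p (-1 / 3)) := by
      linear_combination (9 / 2) * hs1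
    rw [e, hs1']
    have hT := T_eval h3
    have h2 : (2 : ℚ) ∈ Zl p := by exact_mod_cast nat_mem (p := p) 2
    have h92 : (9 / 2 : ℚ) ∈ Zl p := by
      have h9 : (9 : ℚ) ∈ Zl p := by exact_mod_cast nat_mem (p := p) 9
      have := div_mem (p := p) (n := 2) h9 (fun h => by
        have := Nat.le_of_dvd (by norm_num) h
        omega)
      exact_mod_cast this
    have hpD : D p 1 (p : ℚ) := ⟨1, (Zl p).one_mem, by ring⟩
    have e2 : 2 * ∑ k ∈ range p, f k (-1 / 3) / (2 * (k : ℚ) + 1) - 9 / 2 * (p * f p (-1 / 3))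
        - (2 * (legendreSym 3 p : ℤ) - p)
        = 2 * (∑ k ∈ range p, f k (-1 / 3) / (2 * (k : ℚ) + 1) - (legendreSym 3 p : ℤ))
          - 9 / 2 * (p * (f p (-1 / 3) - 2 / 9)) := by ring
    rw [e2]
    exact (D.mul_left h2 hT).sub (D.mul_left h92 (hpD.mul hf))
  · apply D.toExists
    have e : ∑ k ∈ range p, C k * C2bar k / 27 ^ k
        = 2 * ∑ k ∈ range p, f k (-1 / 3) / ((k : ℚ) + 1) ^ 2 := by
      rw [mul_sum]
      refine sum_congr rfl fun k _ => ?_
      rw [← t_eq_f]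
      unfold C C2bar
      have h1 : ((k : ℚ) + 1) ≠ 0 := by positivity
      field_simp
    have hs2' : ∑ k ∈ range p, f k (-1 / 3) / ((k : ℚ) + 1) ^ 2
        = 81 / 4 * (p * f p (-1 / 3)) + 9 / 2 * (f p (-1 / 3) - 1) := by
      linear_combination (81 / 4) * hs2
    rw [e, hs2']
    have h9 : (9 : ℚ) ∈ Zl p := by exact_mod_cast nat_mem (p := p) 9
    have h81 : (81 / 2 : ℚ) ∈ Zl p := by
      have h9 : (81 : ℚ) ∈ Zl p := by exact_mod_cast nat_mem (p := p) 81
      have := div_mem (p := p) (n := 2) h9 (fun h => by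
        have := Nat.le_of_dvd (by norm_num) h
        omega)
      exact_mod_cast this
    have e2 : 2 * (81 / 4 * (p * f p (-1 / 3)) + 9 / 2 * (f p (-1 / 3) - 1)) - (-7)
        = 9 * (f p (-1 / 3) - 2 / 9) + (p : ℚ) ^ 1 * (81 / 2 * f p (-1 / 3)) := by ring
    rw [e2]
    exact (D.mul_left h9 hf).add (D.pmul ((Zl p).mul_mem h81 hfp))

end Pool.Agent.Results.MP_77f5f4_nt.SunCatalan
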